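import Mathlib
import Pool.Agent.Y947.RL.Stm4

/-!
# Project RR (row MP_187c26_nt): Remond's inequality over `K(mu_infinity)` for algebraic integers with
repelling conjugates or large relative discriminant. Definitions and statements of the parts.

`EN P s` is the regularized logarithmic energy of the zeros of `P`, at the scale `1 - s`; the natural
scale for a polynomial of degree `d` is `1 / (2 d)`.
-/

set_option autoImplicit false

open Finset Polynomial Module Pool.Agent.H388SL Pool.Agent.Y947.DL Pool.Agent.Y947.RL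

namespace Pool.Agent.P8H96.RR

/-- regularized energy of the zeros of a polynomial -/
noncomputable def EN (P : ℂ[X]) (s : ℝ) : ℝ :=
  (P.roots.map fun z => (P.roots.map fun w =>
    -Real.log ‖1 - (s : ℂ) * (H388SL.refl z * starRingEnd ℂ (H388SL.refl w))‖).sum).sum

/-- the energy at the natural scale -/
noncomputable def EV (P : ℂ[X]) : ℝ := EN P (1 - 1 / (2 * P.natDegree))

/-- truncated energy: pairs of zeros at distance less than `1 / d` are counted as if they had
distance `1 / d`, where `d` is the degree -/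
noncomputable def TRU (P : ℂ[X]) : ℝ :=
  (P.roots.map fun z => (P.roots.map fun w => -Real.log (max ‖z - w‖ (1 / P.natDegree))).sum).sum

/-- ENF (30 lines): the zeros as a family indexed by `Fin d`.
Proof: `P.roots = (P.roots.toList : Multiset)`, `b i = P.roots.toList.get i` (after a cast of the
length, which is `P.roots.card`), `List.sum_ofFn`, `List.map_get_...`, `Fin.sum_univ_get'` or
`Multiset.sum_coe`. -/
def S_ENF : Prop := ∀ P : ℂ[X], ∃ b : Fin P.roots.card → ℂ,
  (∀ i, b i ∈ P.roots) ∧ ∀ φ : ℂ → ℝ, (P.roots.map φ).sum = ∑ i, φ (b i)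

/-- KTH3 (150 lines): the theorem over a number field. As `Pool.Agent.Y947.RL2.kth2`
(`Pool/Agent/Y947/RL2/Kth2.lean`), but instead of `hana : T_ANA` one takes the constant function
`ε σ = κ / (4 d)`, where `d = finrank ℚ K / φ(m)` is the size of the classes. (The condition
`σ α = τ α → ε σ = ε τ` is trivial.) Then `∑ ε = φ(m) κ / 4`, and for every primitive root `ω`, with
`b σ = refl (σ α)` for `σ` in the subtype of `cls ζ ω` (cardinality `d`, by `S_TR`), `s = 1 - 1/(2d)`,
`s' = (1 - κ/(4d))^2 ≥ 1 - κ / (2d) ≥ s`: `Pool.Agent.R383.Disc.scale` gives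
`En b s' ≤ En b s + 7 (1 + log((1-s)/(1-s'))) (2 (1-s) d² + 4 En b s)`, with `2 (1-s) d² = d`,
`(1-s)/(1-s') ≤ (1/(2d)) / (κ/(4d)) = 2/κ` (as `1 - s' ≥ κ/(4d)`). Sum over the `φ(m)` roots `ω`:
`EP ζ α ε 1 1 1 1 ≤ finrank * (C B (1 + log (1/κ)))` with an absolute constant `C` (e.g. `C = 100`).
The decomposition of `EP` into the classes is in the last part of the proof of
`Pool.Agent.Y406.RL.ana2` (`Pool/Agent/Y406/RL/Ana2.lean`; `sum_cls`, `ww_mul`), the passage to a constant
`ε` in `Pool.Agent.R383.Disc.rep_main` (`Pool/Agent/R383/Disc/Main.lean`). The remaining part of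
the proof (choice of `κ`, `R`, `Pool.Agent.Y947.RL.real_step`) is as in `kth2`, with the present `B` in
the place of `3 * (1 + Mp)`, and `1 ≤ lam α / φ(m)` is trivial. The hypothesis is formulated with double
sums over the classes. -/
def S_KTH3 : Prop := ∃ c : ℝ, 0 < c ∧ ∀ (K : Type) [Field K] [NumberField K] (m : ℕ) (ζ α : K) (B : ℝ),
  1 ≤ B → Ctx2 m ζ α → UT m ζ α → SQ m ζ α →
  (∀ d : ℕ, d * Nat.totient m = finrank ℚ K →
    ∑ ω ∈ primitiveRoots m ℂ, ∑ σ ∈ cls ζ ω, ∑ τ ∈ cls ζ ω,
      -Real.log ‖1 - ((1 - 1 / (2 * d) : ℝ) : ℂ) *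
        (H388SL.refl (σ α) * starRingEnd ℂ (H388SL.refl (τ α)))‖ ≤ finrank ℚ K * B) →
  c / B ^ 6 ≤ lam α / Nat.totient m

/-- KTH3 is wanted in the form `theorem kth3 : S_TR → S_OPT → T_H1 → T_H2 → T_FX → S_KTH3`. -/
def S_KTHX : Prop := S_TR → S_OPT → T_H1 → T_H2 → T_FX → S_KTH3

/-- SCR (40 lines): invariance of the energy under rotations of the zeros. The zeros of
`P.scaleRoots u` are `u z` (for a monic polynomial `P = ∏ (X - z)`; `Polynomial.scaleRoots` of a product of
linear factors, or `Pool.Agent.Y545.RL.scale_eval` and multiplicities), `refl (u z) = u refl z`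
(`Pool.Agent.H388SL.refl_mul_unit`, see its use in `Pool/Agent/R383/Disc/Main.lean`), `u conj u = 1`. -/
def S_SCR : Prop := ∀ (P : ℂ[X]) (u : ℂ), P.Monic → ‖u‖ = 1 → ∀ s : ℝ, EN (P.scaleRoots u) s = EN P s

/-- EXPR: as `T_EXP` (`Pool.Agent.Y994.RL.Exp.exp3`), with `F(ω, X) = G(ω, X^e)` stated. The proof is the
one of `exp3`; the local fact `hexp` in that proof is what is wanted here. -/
def S_EXPR : Prop := ∀ (m : ℕ) (F : ℤ[X][X]), Hyp3 m F → Hyp2 m F ∨
  ∃ (G : ℤ[X][X]) (e : ℕ), 2 ≤ e ∧ Hyp3 m G ∧ 0 < G.natDegree ∧ F.natDegree = e * G.natDegree ∧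
    ∀ ω : ℂ, IsPrimitiveRoot ω m → sp ω F = expand ℂ e (sp ω G)

/-- ENX (80 lines): energy of the zeros of `P(X^e)`; copy of `Pool.Agent.R383.Disc.Ep_expand` (which is for
integer polynomials). -/
def S_ENX : Prop := ∀ (P : ℂ[X]) (e : ℕ), P.Monic → 0 < e → ∀ s : ℝ, 0 ≤ s → s < 1 →
  EN (expand ℂ e P) s = e * EN P (s ^ e)

/-- MONO (40 lines): the energy is increasing in the scale parameter: `Pool.Agent.R383.Disc.En_mono` with
ENF. -/
def S_MONO : Prop := ∀ (P : ℂ[X]) (s t : ℝ), 0 ≤ s → s ≤ t → t < 1 → 0 ≤ EN P s ∧ EN P s ≤ EN P t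

/-- TRX (100 lines): from the truncated energy to the regularized energy; `d` is the degree, `C` absolute
(`C = 49` is enough).
Case `d = 1`: `EV P = -log ‖1 - (1/2) |refl a|^2‖ ≤ log 2 ≤ 1`, `TRU P = -log (max 0 1) = 0`, and the
logarithm of the Mahler measure of a monic polynomial is not negative.
Case `d ≥ 2`: put `s = 1 - 1/d`. As in `Pool.Agent.R383.Disc.Ep_le_Tr` (`Pool/Agent/R383/Disc/Fin.lean`; the
lemmas `pair_log`, `norm_one_sub_ge`) `EN P s ≤ TRU P + 2 d log M(P) + d`, where `log M(P)` is the sum of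
`log (max 1 |z|)` over the zeros (`Polynomial.mahlerMeasure_eq_leadingCoeff_mul_prod_roots`). Then by
`Pool.Agent.R383.Disc.scale` (with ENF)
`EN P (1 - 1/(2d)) ≤ EN P s + 7 (1 + log 2) (2 (1 - s) d^2 + 4 EN P s) ≤ 49 EN P s + 24 d`. -/
def S_TRX : Prop := ∃ C : ℝ, 1 ≤ C ∧ ∀ P : ℂ[X], P.Monic → 0 < P.natDegree →
  EV P ≤ C * (TRU P + 2 * P.natDegree * Real.log P.mahlerMeasure + 2 * P.natDegree)

/-- DSC (80 lines): the truncated energy in terms of the discriminant; as
`Pool.Agent.R383.Disc.discr_rep` and `Tr_le_discr` (`Pool/Agent/R383/Disc/Fin.lean`) for a monic complex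
polynomial with simple zeros (sums over `P.roots.toFinset` or with ENF). -/
def S_DSC : Prop := ∀ P : ℂ[X], P.Monic → 0 < P.natDegree → P.roots.Nodup →
  TRU P ≤ P.natDegree * Real.log P.natDegree - Real.log ‖P.discr‖

/-- SEP (40 lines): the polynomials in question have simple zeros: `sp ω F` is irreducible over the field
of all roots of unity (`Hyp3.irr`, see `Pool.Agent.Y994.RL.Exp.prim_QAb`, `sp_map`), characteristic
zero: `Irreducible.separable`, `Polynomial.Separable.map`, `Polynomial.nodup_roots`. -/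
def S_SEP : Prop := ∀ (m : ℕ) (F : ℤ[X][X]), Hyp3 m F → 0 < F.natDegree ∧
  ∀ ω : ℂ, IsPrimitiveRoot ω m → (sp ω F).roots.Nodup

end Pool.Agent.P8H96.RR
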