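import Mathlib
import Pool.Agent.P8H96.RR.Stm
import Pool.Agent.Y947.RL2.Fin2
import Pool.Agent.Y545.RL.SC
import Pool.Agent.Y994.RL.Exp

/-!
# Project RR: the theorem for polynomials
-/

set_option autoImplicit false

open Finset Polynomial Module Pool.Agent.H388SL Pool.Agent.Y947.DL Pool.Agent.Y947.RL
  Pool.Agent.Y947.RL2

namespace Pool.Agent.P8H96.RR

section
variable {K : Type} [Field K] [NumberField K]

lemma roots_prod' (S : Finset (K →ₐ[ℚ] ℂ)) (α : K) :
    (∏ τ ∈ S, ((X : ℂ[X]) - C (τ α))).roots = S.val.map fun τ => τ α := by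
  rw [Finset.prod_eq_multiset_prod]
  have e : (Multiset.map (fun τ : K →ₐ[ℚ] ℂ => (X : ℂ[X]) - C (τ α)) S.val) =
      Multiset.map (fun a : ℂ => X - C a) (Multiset.map (fun τ : K →ₐ[ℚ] ℂ => τ α) S.val) := by
    rw [Multiset.map_map]; rfl
  rw [e, Polynomial.roots_multiset_prod_X_sub_C]

lemma EN_prod (S : Finset (K →ₐ[ℚ] ℂ)) (α : K) (s : ℝ) :
    EN (∏ τ ∈ S, ((X : ℂ[X]) - C (τ α))) s = ∑ σ ∈ S, ∑ τ ∈ S,
      -Real.log ‖1 - (s : ℂ) * (H388SL.refl (σ α) * starRingEnd ℂ (H388SL.refl (τ α)))‖ := by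
  unfold EN
  rw [roots_prod', Multiset.map_map]
  rw [Finset.sum_eq_multiset_sum]
  congr 1
  refine Multiset.map_congr rfl fun σ _ => ?_
  simp only [Function.comp_apply]
  rw [Multiset.map_map, Finset.sum_eq_multiset_sum]
  rfl

lemma natDegree_prod' (S : Finset (K →ₐ[ℚ] ℂ)) (α : K) :
    (∏ τ ∈ S, ((X : ℂ[X]) - C (τ α))).natDegree = S.card := by
  rw [natDegree_prod_of_monic _ _ fun τ _ => monic_X_sub_C _]
  simp

end

lemma sp_natDegree' {A : Type*} [CommRing A] [Nontrivial A] (ω : A) {F : ℤ[X][X]} (h : F.Monic) :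
    (sp ω F).natDegree = F.natDegree := h.natDegree_map _

lemma meanP_mul {m : ℕ} (hm : 0 < m) (f : ℂ → ℝ) :
    ∑ ω ∈ primitiveRoots m ℂ, f ω = Nat.totient m * meanP m f := by
  have hφ : (0:ℝ) < Nat.totient m := by exact_mod_cast Nat.totient_pos.mpr hm
  unfold meanP
  field_simp

lemma meanP_le {m : ℕ} (hm : 0 < m) {f g : ℂ → ℝ} (h : ∀ ω : ℂ, IsPrimitiveRoot ω m → f ω ≤ g ω) :
    meanP m f ≤ meanP m g := by
  unfold meanP
  apply div_le_div_of_nonneg_right _ (Nat.cast_nonneg _)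
  exact Finset.sum_le_sum fun ω hω => h ω ((mem_primitiveRoots hm).mp hω)

lemma meanP_smul (m : ℕ) (a : ℝ) (f : ℂ → ℝ) : meanP m (fun ω => a * f ω) = a * meanP m f := by
  unfold meanP
  rw [← Finset.mul_sum, mul_div_assoc]

theorem fin_two (hK : S_KTH3) (hTR : S_TR) (hfk : T_FK) (hred : T_RED) (hmea : S_MEA) (hfxe : T_FXE)
    (hsc : T_SC) (hutk : T_UTK) (htwa : T_TWA) (hctw : T_CTW) (hscr : S_SCR) :
    ∃ c : ℝ, 0 < c ∧ ∀ (m : ℕ) (F : ℤ[X][X]) (B : ℝ), 1 ≤ B → Hyp2 m F →
      meanP m (fun ω => EV (sp ω F)) ≤ F.natDegree * B →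
      c / B ^ 6 ≤ meanP m (fun ω => Real.log (sp ω F).mahlerMeasure) := by
  obtain ⟨c, hc, hk⟩ := hK
  refine ⟨c, hc, ?_⟩
  intro m
  induction m using Nat.strong_induction_on with
  | _ m ih =>
    intro F B hB hF hE
    have hm := hF.hm
    obtain ⟨K, _, _, ζ, α, hC, hprod⟩ := hfk m F hF
    have hrot : ∀ k : ℕ, ∀ ω : ℂ, IsPrimitiveRoot ω m → ∀ s : ℝ,
        EN (sp ω (F.scaleRoots (X ^ k))) s = EN (sp ω F) s := by
      intro k ω hω s
      rw [Pool.Agent.Y545.RL.sp_scale ω hF.monic k]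
      apply hscr
      · exact hF.monic.map _
      · rw [norm_pow, hω.norm'_eq_one hm.ne', one_pow]
    have hdegk : ∀ k : ℕ, (F.scaleRoots (X ^ k)).natDegree = F.natDegree := fun k =>
      natDegree_scaleRoots _ _
    by_cases hsq : SQ m ζ α
    · obtain ⟨k, hut, hsame⟩ := hutk K m ζ α hC
      obtain ⟨hC', hlam, hMp⟩ := hctw K m ζ α hC k
      have hsq' : SQ m ζ (ζ ^ k * α) := by
        intro p hp hpm
        obtain ⟨u, hu, hnot⟩ := hsq p hp hpm
        exact ⟨u, hu, fun h => hnot (hsame p hp hpm u hu h)⟩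
      have h1 := hk K m ζ (ζ ^ k * α) B hB hC' hut hsq' ?_
      · rw [hlam] at h1
        rw [mean_mahler hm hC.hζ hprod]
        exact h1
      · intro d hd
        obtain ⟨hF1, -, hpr⟩ := hsc m F hF k
        have hprod1 := hpr K ζ α hprod
        have hφ : 0 < Nat.totient m := Nat.totient_pos.mpr hm
        have hdeg : ∀ ω : ℂ, IsPrimitiveRoot ω m → F.natDegree = d := by
          intro ω hω
          have h2 := (hTR K m ζ hm hC.hζ).2.2 ω hω
          rw [← hd] at h2
          have h3 := Nat.eq_of_mul_eq_mul_right hφ h2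
          rw [← h3, ← natDegree_prod' (cls ζ ω) α, ← hprod ω hω, sp_natDegree' ω hF.monic]
        have hD : F.natDegree = d := hdeg _ (Complex.isPrimitiveRoot_exp m hm.ne')
        have h4 : ∀ ω ∈ primitiveRoots m ℂ, ∑ σ ∈ cls ζ ω, ∑ τ ∈ cls ζ ω,
            -Real.log ‖1 - ((1 - 1 / (2 * d) : ℝ) : ℂ) *
            (H388SL.refl (σ (ζ ^ k * α)) * starRingEnd ℂ (H388SL.refl (τ (ζ ^ k * α))))‖ =
            EV (sp ω F) := by
          intro ω hω
          have hω' := (mem_primitiveRoots hm).mp hω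
          rw [← EN_prod, ← hprod1 ω hω', hrot k ω hω']
          unfold EV
          rw [sp_natDegree' ω hF.monic, hD]
        rw [Finset.sum_congr rfl h4, meanP_mul hm, ← hd]
        push_cast
        calc (Nat.totient m : ℝ) * meanP m (fun ω => EV (sp ω F)) ≤
              Nat.totient m * (F.natDegree * B) := mul_le_mul_of_nonneg_left hE (Nat.cast_nonneg _)
          _ = d * Nat.totient m * B := by rw [hD]; ring
    · unfold SQ at hsq
      push Not at hsq
      obtain ⟨p, hp, hpm, hfix⟩ := hsq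
      obtain ⟨k, hk2⟩ := htwa K m ζ α hC p hp hpm hfix
      obtain ⟨hF1, hinv, hpr⟩ := hsc m F hF k
      obtain ⟨hC', -, -⟩ := hctw K m ζ α hC k
      have hprod1 := hpr K ζ α hprod
      have hdegF1 := hdegk k
      have hrotk := hrot k
      set F1 := F.scaleRoots (X ^ k) with hF1def
      have hcop : ∀ u ∈ Gset m p, u.Coprime m := by
        intro u hu
        unfold Gset at hu
        exact (Finset.mem_filter.mp hu).2.1
      have h2 : ∀ ω : ℂ, IsPrimitiveRoot ω m → ∀ u ∈ Gset m p, sp (ω ^ u) F1 = sp ω F1 := by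
        intro ω hω u hu
        rw [hprod1 ω hω, hprod1 (ω ^ u) (hω.pow_of_coprime u (hcop u hu)),
          hfxe K m ζ (ζ ^ k * α) hC' u (hcop u hu) (hk2 u hu) ω hω]
      obtain ⟨F', hF', heq⟩ := hred m F1 hF1 p hp hpm h2
      have hlt : m / p < m := Nat.div_lt_self hm hp.one_lt
      have hdeg' : F'.natDegree = F.natDegree := by
        have hω := Complex.isPrimitiveRoot_exp m hm.ne'
        have h5 := congrArg natDegree (heq _ hω)
        rw [sp_natDegree' _ hF'.monic, sp_natDegree' _ hF1.monic, hdegF1] at h5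
        exact h5
      have e1 : meanP m (fun ω => EV (sp (ω ^ p) F')) = meanP m (fun ω => EV (sp ω F)) := by
        apply meanP_congr hm
        intro ω hω
        rw [heq ω hω]
        unfold EV
        rw [hrotk ω hω, sp_natDegree' ω hF1.monic, sp_natDegree' ω hF.monic, hdegF1]
      have e2 : meanP m (fun ω => Real.log (sp (ω ^ p) F').mahlerMeasure) =
          meanP m (fun ω => Real.log (sp ω F).mahlerMeasure) := by
        apply meanP_congr hm
        intro ω hω
        rw [heq ω hω, (hinv ω hω).1]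
      have h3 := ih (m / p) hlt F' B hB hF' (by
        rw [← hmea m p hm hp hpm, e1, hdeg']
        exact hE)
      rw [← hmea m p hm hp hpm (fun ω => Real.log (sp ω F').mahlerMeasure), e2] at h3
      exact h3

/-- energy of the zeros of `P(X^e)` at the natural scales -/
lemma EV_expand (henx : S_ENX) (hmono : S_MONO) {P : ℂ[X]} (hP : P.Monic) (hd : 0 < P.natDegree)
    {e : ℕ} (he : 0 < e) : e * EV P ≤ EV (expand ℂ e P) := by
  obtain ⟨d, hd'⟩ : ∃ d : ℝ, d = P.natDegree := ⟨_, rfl⟩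
  have hd1 : (1:ℝ) ≤ d := by rw [hd']; exact_mod_cast hd
  have he1 : (1:ℝ) ≤ e := by exact_mod_cast he
  have hed : (1:ℝ) ≤ d * e := by nlinarith
  unfold EV
  rw [natDegree_expand]
  push_cast
  rw [← hd']
  have h0 : 0 < 1 / (2 * (d * e)) := by positivity
  have h1 : 1 / (2 * (d * e)) ≤ 1 / 2 := one_div_le_one_div_of_le (by norm_num) (by linarith)
  rw [henx P e hP he _ (by linarith) (by linarith)]
  apply mul_le_mul_of_nonneg_left _ (by linarith)
  have h2 : 1 / (2 * d) ≤ 1 / 2 := one_div_le_one_div_of_le (by norm_num) (by linarith)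
  apply (hmono P _ _ (by linarith) _ _).2
  · have h5 := one_add_mul_le_pow (show -2 ≤ -(1 / (2 * (d * e))) by linarith) e
    have e1 : 1 + (e:ℝ) * -(1 / (2 * (d * e))) = 1 - 1 / (2 * d) := by
      field_simp
      ring
    rw [e1, ← sub_eq_add_neg] at h5
    exact h5
  · exact pow_lt_one₀ (by linarith) (by linarith) he.ne'

/-- the general theorem -/
def S_FINR : Prop := ∃ c : ℝ, 0 < c ∧ ∀ (m : ℕ) (F : ℤ[X][X]) (B : ℝ), 1 ≤ B → Hyp3 m F →
  meanP m (fun ω => EV (sp ω F)) ≤ F.natDegree * B →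
  c / B ^ 6 ≤ meanP m (fun ω => Real.log (sp ω F).mahlerMeasure)

theorem fin_three (h : ∃ c : ℝ, 0 < c ∧ ∀ (m : ℕ) (F : ℤ[X][X]) (B : ℝ), 1 ≤ B → Hyp2 m F →
      meanP m (fun ω => EV (sp ω F)) ≤ F.natDegree * B →
      c / B ^ 6 ≤ meanP m (fun ω => Real.log (sp ω F).mahlerMeasure)) (hexp : S_EXPR)
    (henx : S_ENX) (hmono : S_MONO) : S_FINR := by
  obtain ⟨c, hc, hk⟩ := h
  refine ⟨c, hc, ?_⟩
  intro m F
  induction hn : F.natDegree using Nat.strong_induction_on generalizing F with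
  | _ n ih =>
    intro B hB hF hE
    rw [← hn] at hE
    rcases hexp m F hF with h2 | ⟨G, e, he2, hG, hGd, hdeg, hexpd⟩
    · exact hk m F B hB h2 hE
    · have he1 : (0:ℝ) < e := by exact_mod_cast (by omega : 0 < e)
      have hlt : G.natDegree < n := by
        rw [← hn, hdeg]
        nlinarith
      have h3 := ih G.natDegree hlt G rfl B hB hG ?_
      · have e2 : meanP m (fun ω => Real.log (sp ω F).mahlerMeasure) =
            meanP m (fun ω => Real.log (sp ω G).mahlerMeasure) :=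
          meanP_congr hF.hm fun ω hω => by
            rw [hexpd ω hω, Pool.Agent.Y994.RL.Exp.mahler_expand (by omega)]
        rw [e2]
        exact h3
      · have h4 : e * meanP m (fun ω => EV (sp ω G)) ≤ meanP m (fun ω => EV (sp ω F)) := by
          rw [← meanP_smul]
          apply meanP_le hF.hm
          intro ω hω
          rw [hexpd ω hω]
          exact EV_expand henx hmono (hG.monic.map _)
            (by rw [hG.monic.natDegree_map]; exact hGd) (by omega)
        have h5 : (e:ℝ) * meanP m (fun ω => EV (sp ω G)) ≤ e * (G.natDegree * B) := by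
          refine h4.trans (hE.trans (le_of_eq ?_))
          rw [hdeg]
          push_cast
          ring
        exact le_of_mul_le_mul_left h5 he1

end Pool.Agent.P8H96.RR
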