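import Mathlib
import Pool.Agent.P8H96.RR.Fin
import Pool.Agent.Y947.RL2.Alg

/-!
# Project RR: from polynomials to algebraic integers
-/

set_option autoImplicit false

open Polynomial Pool.Agent.Y947.RL Pool.Agent.Y947.RL2

namespace Pool.Agent.P8H96.RR

open IntermediateField in
/-- degrees over subfields of finite extensions of the field of all roots of unity -/
theorem deg (E : IntermediateField QAb ℂ) [FiniteDimensional QAb E] (L : IntermediateField ℚ ℂ)
    (hL : ∀ x ∈ L, x ∈ E) (z : ℂ) (hz : IsIntegral ℤ z) :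
    (minpoly QAb z).natDegree ≤ Module.finrank QAb E * (minpoly L z).natDegree := by
  have hintL : IsIntegral L z := (hz.tower_top (A := ℚ)).tower_top
  have hintQ : IsIntegral QAb z := (hz.tower_top (A := ℚ)).tower_top
  have hintF : IsIntegral E z := hintQ.tower_top
  let j : L →+* E :=
    { toFun := fun x => ⟨x, hL x x.2⟩
      map_one' := rfl
      map_mul' := fun _ _ => rfl
      map_zero' := rfl
      map_add' := fun _ _ => rfl }
  have hj : (algebraMap E ℂ).comp j = algebraMap L ℂ := by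
    ext x
    rfl
  have h1 : (minpoly E z).natDegree ≤ (minpoly L z).natDegree := by
    have h2 : aeval z ((minpoly L z).map j) = 0 := by
      rw [aeval_def, eval₂_map, hj, ← aeval_def, minpoly.aeval]
    have h3 : ((minpoly L z).map j).Monic := (minpoly.monic hintL).map j
    have h4 := natDegree_le_of_dvd (minpoly.dvd E z h2) h3.ne_zero
    rwa [(minpoly.monic hintL).natDegree_map] at h4
  have h5 : Module.finrank QAb E⟮z⟯ = Module.finrank QAb E * (minpoly E z).natDegree := by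
    rw [← Module.finrank_mul_finrank QAb E E⟮z⟯, IntermediateField.adjoin.finrank hintF]
  have : FiniteDimensional E E⟮z⟯ := IntermediateField.adjoin.finiteDimensional hintF
  have : FiniteDimensional QAb E⟮z⟯ := FiniteDimensional.trans QAb E E⟮z⟯
  have : IsScalarTower QAb E⟮z⟯ ℂ := IsScalarTower.of_algebraMap_eq fun _ => rfl
  have h6 : (minpoly QAb z).natDegree ≤ Module.finrank QAb E⟮z⟯ := by
    have h7 : minpoly QAb (algebraMap E⟮z⟯ ℂ (AdjoinSimple.gen E z)) =
        minpoly QAb (AdjoinSimple.gen E z) :=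
      minpoly.algebraMap_eq (FaithfulSMul.algebraMap_injective E⟮z⟯ ℂ) _
    rw [AdjoinSimple.algebraMap_gen] at h7
    rw [h7]
    exact minpoly.natDegree_le _
  calc (minpoly QAb z).natDegree ≤ Module.finrank QAb E * (minpoly E z).natDegree := by
        rw [← h5]; exact h6
    _ ≤ _ := Nat.mul_le_mul_left _ h1

lemma meanP_add (m : ℕ) (f g : ℂ → ℝ) :
    meanP m (fun ω => f ω + g ω) = meanP m f + meanP m g := by
  unfold meanP
  rw [Finset.sum_add_distrib, add_div]

lemma meanP_const {m : ℕ} (hm : 0 < m) (a : ℝ) : meanP m (fun _ => a) = a := by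
  have hφ : (0:ℝ) < Nat.totient m := by exact_mod_cast Nat.totient_pos.mpr hm
  unfold meanP
  rw [Finset.sum_const, Complex.card_primitiveRoots, nsmul_eq_mul]
  field_simp

lemma logM_nonneg {P : ℂ[X]} (hP : P.Monic) : 0 ≤ Real.log P.mahlerMeasure := by
  apply Real.log_nonneg
  have h1 := P.leadingCoeff_le_mahlerMeasure
  rwa [hP.leadingCoeff, norm_one] at h1

/-- the bound for polynomials in terms of the truncated energy -/
theorem fin_tru (h : S_FINR) (htrx : S_TRX) (hsep : S_SEP) : ∃ c : ℝ, 0 < c ∧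
    ∀ (m : ℕ) (F : ℤ[X][X]), Hyp3 m F → ∀ A : ℝ, 0 ≤ A →
      meanP m (fun ω => TRU (sp ω F)) ≤ A * F.natDegree →
      c / (1 + A) ^ 6 ≤ meanP m (fun ω => Real.log (sp ω F).mahlerMeasure) := by
  obtain ⟨c1, hc1, hk⟩ := h
  obtain ⟨C, hC1, hC⟩ := htrx
  have hC0 : 0 < C := by linarith
  refine ⟨min 1 (c1 / (4 * C) ^ 6), by positivity, ?_⟩
  intro m F hF A hA hT
  have hm := hF.hm
  have hpow : 1 ≤ (1 + A) ^ 6 := one_le_pow₀ (by linarith)
  obtain ⟨hD0, -⟩ := hsep m F hF
  have hD : (1:ℝ) ≤ F.natDegree := by exact_mod_cast hD0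
  obtain ⟨D, hDd⟩ : ∃ D : ℝ, D = F.natDegree := ⟨_, rfl⟩
  obtain ⟨M, hM⟩ : ∃ M : ℝ, M = meanP m (fun ω => Real.log (sp ω F).mahlerMeasure) := ⟨_, rfl⟩
  rw [← hDd] at hD hT
  rw [← hM]
  by_cases hbig : 1 ≤ M
  · refine le_trans ?_ hbig
    rw [div_le_one (by positivity)]
    exact (min_le_left _ _).trans hpow
  push Not at hbig
  have h1 : meanP m (fun ω => EV (sp ω F)) ≤ F.natDegree * (4 * C * (1 + A)) := by
    have h2 : meanP m (fun ω => EV (sp ω F)) ≤ meanP m (fun ω => C * (TRU (sp ω F) +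
        2 * D * Real.log (sp ω F).mahlerMeasure + 2 * D)) := by
      apply meanP_le hm
      intro ω hω
      have h3 := hC (sp ω F) (hF.monic.map _) (by rw [sp_natDegree' ω hF.monic]; exact hD0)
      rw [sp_natDegree' ω hF.monic, ← hDd] at h3
      exact h3
    rw [meanP_smul, meanP_add, meanP_const hm, meanP_add, meanP_smul, ← hM] at h2
    refine h2.trans ?_
    rw [← hDd]
    have h4 : meanP m (fun ω => TRU (sp ω F)) + 2 * D * M + 2 * D ≤ D * (4 * (1 + A)) := by
      have h5 : 2 * D * M ≤ 2 * D * 1 := mul_le_mul_of_nonneg_left hbig.le (by linarith)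
      nlinarith
    calc C * (meanP m (fun ω => TRU (sp ω F)) + 2 * D * M + 2 * D) ≤ C * (D * (4 * (1 + A))) :=
          mul_le_mul_of_nonneg_left h4 hC0.le
      _ = D * (4 * C * (1 + A)) := by ring
  have h6 := hk m F (4 * C * (1 + A)) (by nlinarith) hF h1
  rw [← hM] at h6
  refine le_trans ?_ h6
  rw [mul_pow (4 * C), ← div_div]
  apply div_le_div_of_nonneg_right _ (by positivity)
  exact min_le_right _ _

/-- the condition on the discriminants implies the one on the truncated energy -/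
theorem dsc_tru (hdsc : S_DSC) (hsep : S_SEP) {m : ℕ} {F : ℤ[X][X]} (hF : Hyp3 m F) {A : ℝ}
    (h : F.natDegree * (Real.log F.natDegree - A) ≤
      meanP m (fun ω => Real.log ‖(sp ω F).discr‖)) :
    meanP m (fun ω => TRU (sp ω F)) ≤ A * F.natDegree := by
  obtain ⟨hD0, hnd⟩ := hsep m F hF
  have h1 : meanP m (fun ω => TRU (sp ω F)) ≤ meanP m (fun ω =>
      F.natDegree * Real.log F.natDegree + (-1) * Real.log ‖(sp ω F).discr‖) := by
    apply meanP_le hF.hm
    intro ω hω
    have h3 := hdsc (sp ω F) (hF.monic.map _) (by rw [sp_natDegree' ω hF.monic]; exact hD0)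
      (hnd ω hω)
    rw [sp_natDegree' ω hF.monic] at h3
    linarith
  rw [meanP_add, meanP_const hF.hm, meanP_smul] at h1
  linarith

/-- the final theorem -/
def S_ALG : Prop := ∃ c : ℝ, 0 < c ∧ ∀ z : ℂ, IsIntegral ℤ z → z ≠ 0 →
  (∀ n : ℕ, 0 < n → z ^ n ≠ 1) →
    (∃ (m : ℕ) (ω₀ : QAb) (F : ℤ[X][X]), 0 < m ∧ IsPrimitiveRoot ω₀ m ∧ F.Monic ∧
      sp ω₀ F = minpoly QAb z) ∧
    ∀ (m : ℕ) (ω₀ : QAb) (F : ℤ[X][X]), 0 < m → IsPrimitiveRoot ω₀ m → F.Monic →
      sp ω₀ F = minpoly QAb z → ∀ A : ℝ, 0 ≤ A →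
      (meanP m (fun ω => TRU (sp ω F)) ≤ A * F.natDegree ∨
        F.natDegree * (Real.log F.natDegree - A) ≤
          meanP m (fun ω => Real.log ‖(sp ω F).discr‖)) →
      ∀ (E : IntermediateField QAb ℂ) [FiniteDimensional QAb E] (L : IntermediateField ℚ ℂ),
        (∀ x ∈ L, x ∈ E) →
        c / Module.finrank QAb E / (1 + A) ^ 6 ≤ (minpoly L z).natDegree * hgt z

theorem alg (hfin : S_FINR) (htrx : S_TRX) (hdsc : S_DSC) (hsep : S_SEP) (hhgt : T_HGT)
    (hrep : T_REP) (hcnj : T_CNJ) : S_ALG := by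
  obtain ⟨c, hc, h⟩ := fin_tru hfin htrx hsep
  refine ⟨c, hc, ?_⟩
  intro z hz h0 hroot
  refine ⟨hrep z hz, ?_⟩
  intro m ω₀ F hm hω₀ hF heq A hA hcond E _ L hL
  have hyp := hcnj z hz h0 hroot m ω₀ F hm hω₀ hF heq
  have hω : IsPrimitiveRoot (ω₀ : ℂ) m :=
    hω₀.map_of_injective (f := algebraMap QAb ℂ) (algebraMap QAb ℂ).injective
  have hzero : (sp (ω₀ : ℂ) F).eval z = 0 := by
    have h1 : sp (ω₀ : ℂ) F = (minpoly QAb z).map (algebraMap QAb ℂ) := by
      rw [← heq, sp_map']
      rfl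
    rw [h1, eval_map_algebraMap, minpoly.aeval]
  have hdeg : F.natDegree = (minpoly QAb z).natDegree := by
    rw [← heq]
    unfold sp
    rw [hF.natDegree_map]
  have hT : meanP m (fun ω => TRU (sp ω F)) ≤ A * F.natDegree := by
    rcases hcond with h1 | h1
    · exact h1
    · exact dsc_tru hdsc hsep hyp h1
  have h1 := h m F hyp A hA hT
  rw [hhgt m F hyp ω₀ hω z hzero, hdeg] at h1
  have hpow : 0 < (1 + A) ^ 6 := by positivity
  have hK : (0:ℝ) < Module.finrank QAb E := by exact_mod_cast Module.finrank_pos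
  have h2 : 0 < c / (1 + A) ^ 6 := by positivity
  have h3 : 0 < hgt z := by
    by_contra hneg
    push Not at hneg
    have : ((minpoly QAb z).natDegree : ℝ) * hgt z ≤ 0 :=
      mul_nonpos_of_nonneg_of_nonpos (Nat.cast_nonneg _) hneg
    linarith
  have h4 : ((minpoly QAb z).natDegree : ℝ) ≤
      Module.finrank QAb E * (minpoly L z).natDegree := by
    exact_mod_cast deg E L hL z hz
  rw [div_div, mul_comm ((Module.finrank QAb E : ℝ)), ← div_div, div_le_iff₀ hK]
  calc c / (1 + A) ^ 6 ≤ (minpoly QAb z).natDegree * hgt z := h1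
    _ ≤ (Module.finrank QAb E * (minpoly L z).natDegree) * hgt z :=
        mul_le_mul_of_nonneg_right h4 h3.le
    _ = (minpoly L z).natDegree * hgt z * Module.finrank QAb E := by ring

end Pool.Agent.P8H96.RR
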