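import Mathlib
import Pool.Agent.P8H96.RR.Stm
import Pool.Agent.R383.Disc.Scale

/-!
# Project RR: ENF, MONO, SCR
-/

set_option autoImplicit false

open Finset Polynomial Module Pool.Agent.H388SL Pool.Agent.Y947.DL Pool.Agent.Y947.RL

namespace Pool.Agent.P8H96.RR

theorem enf : S_ENF := by
  intro P
  have hlen : P.roots.toList.length = P.roots.card := Multiset.length_toList _
  refine ⟨fun i => P.roots.toList.get (i.cast hlen.symm), ?_, ?_⟩
  · intro i
    rw [← Multiset.mem_toList]
    exact List.get_mem _ _
  · intro φ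
    have h1 : (P.roots.map φ).sum = (P.roots.toList.map φ).sum := by
      conv_lhs => rw [← Multiset.coe_toList P.roots]
      rw [Multiset.map_coe, Multiset.sum_coe]
    rw [h1, ← List.sum_ofFn]
    congr 1
    apply List.ext_get
    · simp
    · intro n h2 h3
      simp

/-- the energy as an energy of a family -/
lemma EN_fam {P : ℂ[X]} {b : Fin P.roots.card → ℂ}
    (h : ∀ φ : ℂ → ℝ, (P.roots.map φ).sum = ∑ i, φ (b i)) (s : ℝ) :
    EN P s = R383.Disc.En (fun i => H388SL.refl (b i)) s := by
  unfold EN R383.Disc.En
  rw [h]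
  refine Finset.sum_congr rfl fun i _ => ?_
  rw [h]

theorem mono (henf : S_ENF) : S_MONO := by
  intro P s t hs hst ht
  obtain ⟨b, -, hb⟩ := henf P
  rw [EN_fam hb, EN_fam hb]
  exact ⟨R383.Disc.En_nonneg (fun i => norm_refl_le _) hs (lt_of_le_of_lt hst ht),
    R383.Disc.En_mono (fun i => norm_refl_le _) hs hst ht⟩

lemma roots_scale {P : ℂ[X]} (hP : P.Monic) {u : ℂ} :
    (P.scaleRoots u).roots = P.roots.map fun z => u * z := by
  have hs : P.Splits := IsAlgClosed.splits _
  have h1 := hs.eq_prod_roots_of_monic hP
  have h2 : ∀ S : Multiset ℂ, ((S.map fun a => (X : ℂ[X]) - C a).prod).scaleRoots u =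
      ((S.map fun z => u * z).map fun a => (X : ℂ[X]) - C a).prod := by
    intro S
    induction S using Multiset.induction_on with
    | empty =>
      simp only [Multiset.map_zero, Multiset.prod_zero]
      exact one_scaleRoots u
    | cons a S ih =>
      simp only [Multiset.map_cons, Multiset.prod_cons]
      rw [mul_scaleRoots_of_noZeroDivisors, ih]
      congr 1
      ext i
      rw [coeff_scaleRoots, natDegree_X_sub_C]
      rcases i with _ | _ | i
      · simp [mul_comm]
      · simp
      · simp [coeff_X]
  conv_lhs => rw [h1, h2]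
  rw [Polynomial.roots_multiset_prod_X_sub_C]

theorem scr : S_SCR := by
  intro P u hP hu s
  unfold EN
  rw [roots_scale hP, Multiset.map_map]
  congr 1
  refine Multiset.map_congr rfl fun z _ => ?_
  simp only [Function.comp_apply]
  rw [Multiset.map_map]
  congr 1
  refine Multiset.map_congr rfl fun w _ => ?_
  simp only [Function.comp_apply]
  rw [refl_mul_unit hu, refl_mul_unit hu]
  congr 4
  have h1 : u * starRingEnd ℂ u = 1 := by
    rw [Complex.mul_conj, Complex.normSq_eq_norm_sq, hu]
    simp
  rw [map_mul]
  linear_combination ((s : ℂ) * H388SL.refl z * starRingEnd ℂ (H388SL.refl w)) * h1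

end Pool.Agent.P8H96.RR
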