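import Mathlib
import Pool.Agent.P8H96.RR.Stm
import Pool.Agent.R383.Disc.Main

/-!
# Project RR: ENX (after Pool.Agent.R383.Disc.Main)
-/

set_option autoImplicit false

open Finset Polynomial Module Pool.Agent.H388SL Pool.Agent.Y947.DL Pool.Agent.Y947.DM
  Pool.Agent.Y947.DP Pool.Agent.R383.Disc

namespace Pool.Agent.P8H96.RR

lemma roots_expand {q : ℕ} (hq : 0 < q) {g : ℂ[X]} (hg : g.Monic) :
    (expand ℂ q g).roots = g.roots.bind fun a =>
      (nthRootsFinset q (1:ℂ)).val.map fun ζ => ζ * rt hq a := by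
  have hs : g.Splits := IsAlgClosed.splits _
  have h1 := hs.eq_prod_roots_of_monic hg
  obtain ⟨S, hS⟩ : ∃ S, S = g.roots := ⟨_, rfl⟩
  rw [← hS] at h1 ⊢
  have h2 : expand ℂ q g =
      (Multiset.map (fun a : ℂ => X - C a) (S.bind fun a =>
        (nthRootsFinset q (1:ℂ)).val.map fun ζ => ζ * rt hq a)).prod := by
    rw [h1, map_multiset_prod, Multiset.map_map, Multiset.map_bind, Multiset.prod_bind]
    congr 1
    refine Multiset.map_congr rfl fun a _ => ?_
    simp only [Function.comp_apply, map_sub, expand_X, expand_C]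
    rw [Multiset.map_map]
    have h3 := X_pow_sub_C_eq hq (rt hq a)
    rw [rt_pow] at h3
    rw [h3]
    rfl
  rw [h2, Polynomial.roots_multiset_prod_X_sub_C]

theorem enx : S_ENX := by
  intro g q hg hq s hs0 hs1
  unfold EN
  rw [roots_expand hq hg]
  rw [Multiset.map_bind, Multiset.sum_bind, ← Multiset.sum_map_mul_left]
  congr 1
  refine Multiset.map_congr rfl fun a _ => ?_
  rw [Multiset.map_map]
  have key : ∀ ζ ∈ nthRootsFinset q (1:ℂ), (((g.roots).bind fun a =>
      (nthRootsFinset q (1:ℂ)).val.map fun ζ => ζ * rt hq a).map fun w =>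
        -Real.log ‖1 - (s : ℂ) * (H388SL.refl (ζ * rt hq a) * starRingEnd ℂ (H388SL.refl w))‖).sum =
      ((g.roots).map fun w => -Real.log ‖1 - ((s ^ q : ℝ) : ℂ) *
        (H388SL.refl a * starRingEnd ℂ (H388SL.refl w))‖).sum := by
    intro ζ hζ
    rw [Multiset.map_bind, Multiset.sum_bind]
    congr 1
    refine Multiset.map_congr rfl fun w _ => ?_
    rw [Multiset.map_map]
    have hζ1 : ‖ζ‖ = 1 := norm_of_mem_grid hq hζ
    have hζq : ζ ^ q = 1 := (mem_nthRootsFinset hq 1).mp hζ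
    set x : ℂ := (s : ℂ) * (starRingEnd ℂ (ζ * H388SL.refl (rt hq a)) * H388SL.refl (rt hq w)) with hx
    have hxn : ‖x‖ < 1 := by
      rw [hx, norm_mul, norm_mul, RCLike.norm_conj, norm_mul, hζ1, one_mul, Complex.norm_real,
        Real.norm_of_nonneg hs0]
      have h1 : ‖H388SL.refl (rt hq a)‖ * ‖H388SL.refl (rt hq w)‖ ≤ 1 :=
        mul_le_one₀ (norm_refl_le _) (norm_nonneg _) (norm_refl_le _)
      nlinarith [mul_nonneg (norm_nonneg (H388SL.refl (rt hq a))) (norm_nonneg (H388SL.refl (rt hq w)))]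
    have h2 := sum_rot hq hxn
    have h3 : ∀ η ∈ nthRootsFinset q (1:ℂ),
        -Real.log ‖1 - (s : ℂ) * (H388SL.refl (ζ * rt hq a) *
          starRingEnd ℂ (H388SL.refl (η * rt hq w)))‖ = -Real.log ‖1 - η * x‖ := by
      intro η hη
      rw [refl_mul_unit hζ1, refl_mul_unit (norm_of_mem_grid hq hη)]
      congr 2
      rw [← RCLike.norm_conj (1 - η * x)]
      congr 1
      rw [hx]
      simp only [map_sub, map_one, map_mul, Complex.conj_conj, Complex.conj_ofReal]
      ring
    have h4 : (Multiset.map ((fun w_1 => -Real.log ‖1 - (s : ℂ) * (H388SL.refl (ζ * rt hq a) *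
        starRingEnd ℂ (H388SL.refl w_1))‖) ∘ fun ζ => ζ * rt hq w) (nthRootsFinset q (1:ℂ)).val).sum =
        ∑ η ∈ nthRootsFinset q (1:ℂ), -Real.log ‖1 - η * x‖ := by
      rw [Finset.sum_eq_multiset_sum]
      congr 1
      exact Multiset.map_congr rfl fun η hη => h3 η hη
    rw [h4, h2]
    congr 2
    rw [← RCLike.norm_conj (1 - x ^ q)]
    congr 1
    rw [hx]
    simp only [map_sub, map_one, map_mul, map_pow, Complex.conj_conj, Complex.conj_ofReal, mul_pow]
    rw [hζq, one_mul, ← map_pow, ← refl_pow _ _ hq.ne', ← refl_pow _ _ hq.ne', rt_pow, rt_pow]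
    push_cast
    ring
  have h5 : (Multiset.map ((fun z => (Multiset.map (fun w => -Real.log ‖1 - (s : ℂ) *
      (H388SL.refl z * starRingEnd ℂ (H388SL.refl w))‖) ((g.roots).bind fun a =>
      (nthRootsFinset q (1:ℂ)).val.map fun ζ => ζ * rt hq a)).sum) ∘ fun ζ => ζ * rt hq a)
        (nthRootsFinset q (1:ℂ)).val).sum = ∑ ζ ∈ nthRootsFinset q (1:ℂ),
        ((g.roots).map fun w => -Real.log ‖1 - ((s ^ q : ℝ) : ℂ) *
        (H388SL.refl a * starRingEnd ℂ (H388SL.refl w))‖).sum := by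
    rw [Finset.sum_eq_multiset_sum]
    congr 1
    exact Multiset.map_congr rfl fun η hη => key η hη
  rw [h5, Finset.sum_const, card_grid hq, nsmul_eq_mul]

end Pool.Agent.P8H96.RR
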