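import Mathlib
import Pool.Agent.P8H96.RR.Stm
import Pool.Agent.Y994.RL.Exp

/-!
# Project RR: EXPR (after Pool.Agent.Y994.RL.Exp) and SEP
-/

set_option autoImplicit false

open Finset Polynomial Module Pool.Agent.Y947.RL Pool.Agent.Y994.RL.Exp

namespace Pool.Agent.P8H96.RR

theorem expr : S_EXPR := by
  classical
  intro m F hF
  by_cases hq : ∀ ω : ℂ, IsPrimitiveRoot ω m → ∀ z w : ℂ,
    (sp ω F).eval z = 0 → (sp ω F).eval w = 0 → ∀ k : ℕ, 0 < k → z ^ k = w ^ k → z = w
  · exact Or.inl ⟨hF.hm, hF.monic, fun ω hω => irr_small hF hω, hF.h0, hF.hroot, hq⟩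
  right
  push Not at hq
  obtain ⟨ω₀, hω₀, z, w, hz, hw, k, hk, hzw, hne⟩ := hq
  have hm := hF.hm
  have hz0 : z ≠ 0 := by
    rintro rfl
    exact hF.h0 ω₀ hω₀ hz
  -- the quotient
  set ξ : ℂ := w / z with hξ
  have hξk : ξ ^ k = 1 := by
    rw [hξ, div_pow, ← hzw, div_self (pow_ne_zero _ hz0)]
  have hξ1 : ξ ≠ 1 := by
    intro h
    rw [hξ, div_eq_one_iff_eq hz0] at h
    exact hne h.symm
  set e := orderOf ξ with he
  have he0 : 0 < e := orderOf_pos_iff.2 (isOfFinOrder_iff_pow_eq_one.2 ⟨k, hk, hξk⟩)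
  have he1 : e ≠ 1 := fun h => hξ1 (orderOf_eq_one_iff.1 h)
  have hwz : w = ξ * z := by
    rw [hξ, div_mul_cancel₀ _ hz0]
  -- everything over the field of all roots of unity
  have hA := prim_QAb hm hω₀
  set ωA : QAb := ⟨ω₀, mem_QAb hm hω₀.pow_eq_one⟩ with hωA
  set ξA : QAb := ⟨ξ, mem_QAb hk hξk⟩ with hξA
  have hirr := hF.irr ωA hA
  have hmon := sp_monic ωA hF.monic
  have hmapC : (sp ωA F).map (algebraMap QAb ℂ) = sp ω₀ F := sp_map _ _ _
  have haz : aeval z (sp ωA F) = 0 := by
    rw [aeval_def, ← eval_map, hmapC, hz]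
  have haw : aeval w (sp ωA F) = 0 := by
    rw [aeval_def, ← eval_map, hmapC, hw]
  have hmp : sp ωA F = minpoly QAb w := minpoly.eq_of_irreducible_of_monic hirr haw hmon
  have hsc : aeval w ((sp ωA F).scaleRoots ξA) = 0 := by
    have := scaleRoots_aeval_eq_zero (r := ξA) haz
    rw [hwz]
    exact this
  have hdvd : sp ωA F ∣ (sp ωA F).scaleRoots ξA := by
    have := minpoly.dvd QAb w hsc
    rwa [← hmp] at this
  have heq : (sp ωA F).scaleRoots ξA = sp ωA F := by
    refine eq_of_monic_of_dvd_of_natDegree_le hmon ((monic_scaleRoots_iff ξA).2 hmon) hdvd ?_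
    rw [natDegree_scaleRoots]
  set D := F.natDegree with hD
  have hcoef : ∀ i, (sp ωA F).coeff i * ξA ^ (D - i) = (sp ωA F).coeff i := by
    intro i
    have := congrArg (fun f => f.coeff i) heq
    simp only [coeff_scaleRoots, sp_natDegree _ hF.monic] at this
    exact this
  have hcoef' : ∀ i, ¬ e ∣ D - i → aeval ω₀ (F.coeff i) = 0 := by
    intro i hi
    have h1 := hcoef i
    have h2 : (sp ωA F).coeff i * (ξA ^ (D - i) - 1) = 0 := by
      rw [mul_sub, h1, mul_one, sub_self]
    rcases mul_eq_zero.1 h2 with h3 | h3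
    · rw [← sp_coeff, ← hmapC, coeff_map, h3, map_zero]
    · exfalso
      apply hi
      apply orderOf_dvd_of_pow_eq_one
      have h4 : ξA ^ (D - i) = 1 := sub_eq_zero.1 h3
      have h5 := congrArg (algebraMap QAb ℂ) h4
      rw [map_pow, map_one] at h5
      exact h5
  have heD : e ∣ D := by
    by_contra hcon
    have h1 := hcoef' 0 (by simpa using hcon)
    apply hF.h0 ω₀ hω₀
    rw [← coeff_zero_eq_eval_zero, sp_coeff, h1]
  have hvan : ∀ i, ¬ e ∣ i → aeval ω₀ (F.coeff i) = 0 := by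
    intro i hi
    by_cases hiD : i ≤ D
    · apply hcoef'
      intro hc
      apply hi
      have := (Nat.dvd_sub_iff_right hiD heD).1 hc
      exact this
    · rw [coeff_eq_zero_of_natDegree_lt (by omega), map_zero]
  -- degree
  have hD0 : 0 < D := by
    rw [Nat.pos_iff_ne_zero]
    intro h0
    have h1 : sp ω₀ F = 1 := by
      have h2 := sp_monic ω₀ hF.monic
      refine h2.natDegree_eq_zero.1 ?_
      rw [sp_natDegree _ hF.monic]
      exact h0
    rw [h1, eval_one] at hz
    exact one_ne_zero hz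
  obtain ⟨D', hD'⟩ := heD
  have hD'0 : 0 < D' := by
    rcases Nat.eq_zero_or_pos D' with h | h
    · rw [h, mul_zero] at hD'
      omega
    · exact h
  have hDlt : D' < D := by
    rw [hD']
    have : 2 ≤ e := by omega
    nlinarith
  -- the polynomial G
  set G : ℤ[X][X] := contract e F with hG
  have hGc : ∀ j, G.coeff j = F.coeff (j * e) := fun j => coeff_contract he0.ne' F j
  have hGdeg : G.natDegree ≤ D' := by
    rw [natDegree_le_iff_coeff_eq_zero]
    intro N hN
    rw [hGc]
    apply coeff_eq_zero_of_natDegree_lt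
    rw [← hD, hD', mul_comm]
    exact Nat.mul_lt_mul_of_pos_right hN he0
  have hGmon : G.Monic := by
    refine monic_of_natDegree_le_of_coeff_eq_one D' hGdeg ?_
    rw [hGc, mul_comm, ← hD']
    exact hF.monic
  have hexp : ∀ {A : Type} [CommRing A] [IsDomain A] (ω : A), IsPrimitiveRoot ω m →
      sp ω F = expand A e (sp ω G) := by
    intro A _ _ ω hω
    ext i
    rw [coeff_expand he0, sp_coeff]
    split_ifs with hi
    · rw [sp_coeff, hGc, Nat.div_mul_cancel hi]
    · exact vanish hm hω₀ (hvan i hi) hω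
  have hGev : ∀ ω : ℂ, IsPrimitiveRoot ω m → ∀ y : ℂ, (sp ω F).eval y = (sp ω G).eval (y ^ e) := by
    intro ω hω y
    rw [hexp ω hω, expand_eval]
  have hdeg : F.natDegree = G.natDegree * e := by
    have h1 := congrArg natDegree (hexp ω₀ hω₀)
    rw [natDegree_expand, sp_natDegree _ hF.monic, sp_natDegree _ hGmon] at h1
    exact h1
  have hGpos : 0 < G.natDegree := by
    rcases Nat.eq_zero_or_pos G.natDegree with h | h
    · rw [h, zero_mul] at hdeg
      omega
    · exact h
  refine ⟨G, e, by omega, ⟨hm, hGmon, ?_, ?_, ?_⟩, hGpos, by rw [hD, hdeg, mul_comm],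
    fun ω hω => hexp ω hω⟩
  · intro ω hω
    have h1 := hF.irr ω hω
    rw [hexp ω hω] at h1
    exact of_irreducible_expand he0.ne' h1
  · intro ω hω h
    apply hF.h0 ω hω
    rw [hGev ω hω, zero_pow he0.ne']
    exact h
  · intro ω hω y hy n hn hyn
    obtain ⟨x, hx⟩ := IsAlgClosed.exists_pow_nat_eq y he0
    refine hF.hroot ω hω x ?_ (e * n) (Nat.mul_pos he0 hn) ?_
    · rw [hGev ω hω, hx, hy]
    · rw [pow_mul, hx, hyn]

theorem sep : S_SEP := by
  intro m F hF
  have hm := hF.hm
  refine ⟨?_, ?_⟩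
  · have h1 := hF.irr _ (prim_QAb hm (Complex.isPrimitiveRoot_exp m hm.ne'))
    have h2 := h1.natDegree_pos
    rw [sp_natDegree _ hF.monic] at h2
    exact h2
  · intro ω hω
    have h1 := hF.irr _ (prim_QAb hm hω)
    have h2 := h1.separable
    have h3 := h2.map (f := algebraMap QAb ℂ)
    rw [sp_map] at h3
    exact nodup_roots h3

end Pool.Agent.P8H96.RR
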