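import Mathlib
import Pool.Agent.P8H96.RR.Stm
import Pool.Agent.Y947.RL2.Kth2
import Pool.Agent.R383.Disc.Scale
import Pool.Agent.Y406.RL.Ana2

/-!
# Project RR: the theorem over a number field
-/

set_option autoImplicit false

open Finset Polynomial Module Pool.Agent.H388SL Pool.Agent.Y947.DL Pool.Agent.Y947.RL
  Pool.Agent.Y947.RL2

namespace Pool.Agent.P8H96.RR

section
variable {K : Type} [Field K] [NumberField K]

/-- the energy of a class at the scale `1 - s` -/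
noncomputable def EC (ζ α : K) (ω : ℂ) (s : ℝ) : ℝ := ∑ σ ∈ cls ζ ω, ∑ τ ∈ cls ζ ω,
  -Real.log ‖1 - (s : ℂ) * (H388SL.refl (σ α) * starRingEnd ℂ (H388SL.refl (τ α)))‖

lemma En_cls (ζ α : K) (ω : ℂ) (s : ℝ) :
    R383.Disc.En (fun σ : cls ζ ω => H388SL.refl ((σ : K →ₐ[ℚ] ℂ) α)) s = EC ζ α ω s := by
  unfold R383.Disc.En EC
  rw [← Finset.sum_coe_sort (cls ζ ω) (fun σ => ∑ τ ∈ cls ζ ω,
    -Real.log ‖1 - (s : ℂ) * (H388SL.refl (σ α) * starRingEnd ℂ (H388SL.refl (τ α)))‖)]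
  refine Finset.sum_congr rfl fun σ _ => ?_
  rw [← Finset.sum_coe_sort (cls ζ ω) (fun τ : K →ₐ[ℚ] ℂ =>
    -Real.log ‖1 - (s : ℂ) * (H388SL.refl ((σ : K →ₐ[ℚ] ℂ) α) * starRingEnd ℂ (H388SL.refl (τ α)))‖)]

lemma EC_scale (ζ α : K) (ω : ℂ) {s s' : ℝ} (hs : 1 / 2 ≤ s) (hss : s ≤ s') (hs1 : s' < 1) :
    EC ζ α ω s' ≤ EC ζ α ω s + 7 * (1 + Real.log ((1 - s) / (1 - s'))) *
      (2 * (1 - s) * ((cls ζ ω).card : ℝ) ^ 2 + 4 * EC ζ α ω s) := by
  have h := R383.Disc.scale (b := fun σ : cls ζ ω => H388SL.refl ((σ : K →ₐ[ℚ] ℂ) α))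
    (fun σ => norm_refl_le _) hs hss hs1
  rw [En_cls, En_cls, Fintype.card_coe] at h
  exact h

lemma EP_const {m : ℕ} (ζ α : K) (hm : 0 < m) (hζ : IsPrimitiveRoot ζ m) (e : ℝ) :
    EP ζ α (fun _ => e) 1 1 1 1 = ∑ ω ∈ primitiveRoots m ℂ, EC ζ α ω ((1 - e) ^ 2) := by
  classical
  unfold EP
  rw [Y406.RL.sum_cls hm hζ]
  refine Finset.sum_congr rfl fun ω hω => ?_
  unfold EC
  refine Finset.sum_congr rfl fun σ hσ => ?_
  rw [← Finset.sum_filter]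
  have hσ' := Y406.RL.mem_cls.1 hσ
  have e4 : (Finset.univ.filter fun τ : K →ₐ[ℚ] ℂ => (σ ζ) ^ 1 = (τ ζ) ^ 1) = cls ζ ω := by
    ext τ
    rw [Finset.mem_filter, Y406.RL.mem_cls, pow_one, pow_one, hσ']
    simp only [Finset.mem_univ, true_and]
    exact eq_comm
  rw [e4]
  refine Finset.sum_congr rfl fun τ hτ => ?_
  rw [ww_mul α (fun _ => e) σ τ one_ne_zero one_ne_zero, pow_one, pow_one, pow_two]

end

theorem kth3 : S_KTHX := by
  intro hTR hopt hh1 hh2 hfx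
  obtain ⟨c0, hc0, hO⟩ := hopt
  obtain ⟨C, hC⟩ : ∃ C : ℝ, C = 100 := ⟨100, rfl⟩
  have hC1 : 1 ≤ C := by rw [hC]; norm_num
  set t : ℝ := max 1 (2 * 7 ^ 6 * C ^ 7 / c0) with ht
  have ht1 : 1 ≤ t := le_max_left _ _
  have ht2 : 2 * 7 ^ 6 * C ^ 7 / c0 ≤ t := le_max_right _ _
  set c1 : ℝ := c0 / (2 * C ^ 6 * (7 * t) ^ 6) with hc1
  have hC0 : 0 < C := by linarith
  have ht0 : 0 < t := by linarith
  have hc1pos : 0 < c1 := by rw [hc1]; positivity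
  refine ⟨c1, hc1pos, ?_⟩
  intro K _ _ m ζ α B hB1 hCtx hut hsq hEn
  have hm := hCtx.hm
  have hζ := hCtx.hζ
  have hφn : 0 < Nat.totient m := Nat.totient_pos.mpr hm
  have hφ : (0:ℝ) < Nat.totient m := by exact_mod_cast hφn
  have hlam := lam_nonneg α
  have hl0 : 0 ≤ lam α / Nat.totient m := div_nonneg hlam hφ.le
  have hB0 : 0 < B := by linarith
  have htB : 1 ≤ t * B := by nlinarith
  set κ : ℝ := 1 / (t * B) ^ 7 with hκ
  have hκ0 : 0 < κ := by positivity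
  have hκ1 : κ ≤ 1 := by
    rw [hκ, div_le_one (by positivity)]
    exact one_le_pow₀ htB
  have hlogκ : 0 ≤ Real.log (1 / κ) := Real.log_nonneg (by rw [le_div_iff₀ hκ0]; linarith)
  set R : ℝ := C * B * (1 + Real.log (1 / κ)) with hR
  have hR1 : 1 ≤ R := by
    have h1 : 1 ≤ C * B := by nlinarith
    have h2 : C * B ≤ C * B * (1 + Real.log (1 / κ)) :=
      le_mul_of_one_le_right (by positivity) (by linarith)
    linarith
  -- the size of the classes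
  obtain ⟨-, -, hcard⟩ := hTR K m ζ hm hζ
  obtain ⟨d, hd⟩ : ∃ d : ℕ, d * Nat.totient m = finrank ℚ K :=
    ⟨_, hcard _ (Complex.isPrimitiveRoot_exp m hm.ne')⟩
  have hcl : ∀ ω : ℂ, IsPrimitiveRoot ω m → (cls ζ ω).card = d := by
    intro ω hω
    have h2 := hcard ω hω
    rw [← hd] at h2
    exact Nat.eq_of_mul_eq_mul_right hφn h2
  have hfin : 0 < finrank ℚ K := finrank_pos
  have hd0 : 0 < d := by
    rcases Nat.eq_zero_or_pos d with h | h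
    · rw [h, zero_mul] at hd
      omega
    · exact h
  have hEn1 := hEn d hd
  have hdR : (1:ℝ) ≤ d := by exact_mod_cast hd0
  have hnR : (finrank ℚ K : ℝ) = Nat.totient m * d := by
    rw [← hd]; push_cast; ring
  rw [hnR] at hEn1
  set e : ℝ := κ / (4 * d) with he
  have he0 : 0 < e := by positivity
  have he1 : e ≤ 1 / (4 * d) := div_le_div_of_nonneg_right hκ1 (by positivity)
  have he2 : 1 / (4 * (d:ℝ)) ≤ 1 / 4 := one_div_le_one_div_of_le (by norm_num) (by linarith)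
  have hsum : ∑ _σ : K →ₐ[ℚ] ℂ, e = Nat.totient m * (κ / 4) := by
    rw [Finset.sum_const, Finset.card_univ, nsmul_eq_mul, AlgHom.card ℚ K ℂ, hnR, he]
    field_simp
  have hε : ∀ σ : K →ₐ[ℚ] ℂ, 0 < (fun _ : K →ₐ[ℚ] ℂ => e) σ ∧ (fun _ : K →ₐ[ℚ] ℂ => e) σ ≤ 1 / 2 :=
    fun σ => ⟨he0, by simp only; linarith⟩
  have hcomp : ∀ σ τ : K →ₐ[ℚ] ℂ, σ α = τ α →
      (fun _ : K →ₐ[ℚ] ℂ => e) σ = (fun _ : K →ₐ[ℚ] ℂ => e) τ := fun _ _ _ => rfl
  -- the energy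
  have hE' : EP ζ α (fun _ => e) 1 1 1 1 ≤ finrank ℚ K * R := by
    rw [EP_const ζ α hm hζ e, hnR]
    obtain ⟨s, hs⟩ : ∃ s : ℝ, s = 1 - 1 / (2 * d) := ⟨_, rfl⟩
    have h2d : 1 / (2 * (d:ℝ)) ≤ 1 / 2 := one_div_le_one_div_of_le (by norm_num) (by linarith)
    have h2d0 : 0 < 1 / (2 * (d:ℝ)) := by positivity
    have h2e : 2 * e ≤ 1 / (2 * d) := by
      have : 2 * (1 / (4 * (d:ℝ))) = 1 / (2 * d) := by field_simp; norm_num
      linarith
    have hs2 : 1 / 2 ≤ s := by rw [hs]; linarith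
    have hss : s ≤ (1 - e) ^ 2 := by rw [hs]; nlinarith
    have hs1 : (1 - e) ^ 2 < 1 := by nlinarith
    have hδ : e ≤ 1 - (1 - e) ^ 2 := by nlinarith
    have hlog : Real.log ((1 - s) / (1 - (1 - e) ^ 2)) ≤ 1 + Real.log (1 / κ) := by
      have h2 : (1 - s) / (1 - (1 - e) ^ 2) ≤ 2 * (1 / κ) := by
        rw [div_le_iff₀ (by linarith)]
        calc 1 - s = 2 * (1 / κ) * e := by rw [he, hs]; field_simp; ring
          _ ≤ _ := mul_le_mul_of_nonneg_left hδ (by positivity)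
      have h3 : 0 < (1 - s) / (1 - (1 - e) ^ 2) := by
        apply div_pos _ (by linarith)
        rw [hs]; linarith
      have h4 := Real.log_le_log h3 h2
      rw [Real.log_mul (by norm_num) (by positivity)] at h4
      have := Real.log_two_lt_d9
      linarith
    have hL0 : 0 ≤ Real.log ((1 - s) / (1 - (1 - e) ^ 2)) := by
      apply Real.log_nonneg
      rw [le_div_iff₀ (by linarith)]
      linarith
    have hECn : ∀ ω : ℂ, 0 ≤ EC ζ α ω s := by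
      intro ω
      rw [← En_cls]
      exact R383.Disc.En_nonneg (fun σ => norm_refl_le _) (by linarith) (by linarith)
    have h1 : ∀ ω ∈ primitiveRoots m ℂ, EC ζ α ω ((1 - e) ^ 2) ≤
        EC ζ α ω s + 7 * (2 + Real.log (1 / κ)) * (d + 4 * EC ζ α ω s) := by
      intro ω hω
      have h2 := EC_scale ζ α ω hs2 hss hs1
      rw [hcl ω ((mem_primitiveRoots hm).mp hω)] at h2
      have h3 : 2 * (1 - s) * (d:ℝ) ^ 2 = d := by rw [hs]; field_simp; ring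
      rw [h3] at h2
      refine h2.trans ?_
      apply add_le_add le_rfl
      apply mul_le_mul_of_nonneg_right _ (by have := hECn ω; positivity)
      linarith
    refine (Finset.sum_le_sum h1).trans ?_
    have hX : ∑ ω ∈ primitiveRoots m ℂ, EC ζ α ω s ≤ Nat.totient m * d * B := by
      rw [hs]
      exact hEn1
    have hX0 : 0 ≤ ∑ ω ∈ primitiveRoots m ℂ, EC ζ α ω s :=
      Finset.sum_nonneg fun ω _ => hECn ω
    rw [Finset.sum_add_distrib, ← Finset.mul_sum, Finset.sum_add_distrib, ← Finset.mul_sum,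
      Finset.sum_const, Complex.card_primitiveRoots, nsmul_eq_mul, hR, hC]
    obtain ⟨N, hN⟩ : ∃ N : ℝ, N = Nat.totient m * d := ⟨_, rfl⟩
    rw [← hN] at hX ⊢
    have hN0 : 0 < N := by rw [hN]; positivity
    obtain ⟨Y, hY⟩ : ∃ Y : ℝ, Y = ∑ ω ∈ primitiveRoots m ℂ, EC ζ α ω s := ⟨_, rfl⟩
    rw [← hY] at hX hX0 ⊢
    have h5 : N + 4 * Y ≤ 5 * (N * B) := by nlinarith
    have h6 : 7 * (2 + Real.log (1 / κ)) * (N + 4 * Y) ≤ 7 * (2 + Real.log (1 / κ)) * (5 * (N * B)) :=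
      mul_le_mul_of_nonneg_left h5 (by positivity)
    have h7 : 0 ≤ N * B := by positivity
    have h8 : 0 ≤ N * B * Real.log (1 / κ) := mul_nonneg h7 hlogκ
    nlinarith
  have hη' : (∑ σ : K →ₐ[ℚ] ℂ, (fun _ : K →ₐ[ℚ] ℂ => e) σ) / Nat.totient m ≤ κ * (C * B) := by
    simp only
    rw [hsum, mul_div_cancel_left₀ _ hφ.ne']
    have h1 : 1 ≤ C * B := by nlinarith
    nlinarith
  have hε0 : 0 ≤ ∑ σ : K →ₐ[ℚ] ℂ, (fun _ : K →ₐ[ℚ] ℂ => e) σ :=
    Finset.sum_nonneg fun σ _ => he0.le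
  have hμ0 : 0 ≤ (lam α + ∑ σ : K →ₐ[ℚ] ℂ, (fun _ : K →ₐ[ℚ] ℂ => e) σ) / Nat.totient m :=
    div_nonneg (by linarith) hφ.le
  have hmain := hO R ((lam α + ∑ σ : K →ₐ[ℚ] ℂ, (fun _ : K →ₐ[ℚ] ℂ => e) σ) / Nat.totient m)
    (ee m ζ α) (fun p => p ^ 2 ∣ m) hR1 hμ0
    (fun p hp => one_le_ee2 hfx hCtx hsq hp)
    (fun p hp hbad => hh2 K m ζ α hCtx _ hε hcomp R hE' p hp hbad (hsq p hp hbad))
    (fun P hP a ha => hh1 K m ζ α hCtx hut _ hε hcomp R hE' P hP a ha)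
  rw [add_div (lam α)] at hmain
  have hfin := real_step (ℓ := 7 * t) hc0 hC1 hB1 ht1 ht2 hκ hR hη' hmain rfl
  rw [hc1]
  exact hfin

end Pool.Agent.P8H96.RR
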