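import Mathlib
import Pool.Agent.P8H96.RR.Alg
import Pool.Agent.P8H96.RR.Kth3
import Pool.Agent.P8H96.RR.Enf
import Pool.Agent.P8H96.RR.Enx
import Pool.Agent.P8H96.RR.Expr
import Pool.Agent.P8H32.RR.Dsc
import Pool.Agent.Y947.RL2.All2
import Pool.Agent.Y433.RL.Hgt
import Pool.Agent.Y858.RL.Rep
import Pool.Agent.Y235.RL.Cnj

/-!
# Project RR: assembly
-/

set_option autoImplicit false

open Pool.Agent.Y947.RL Pool.Agent.Y947.RL2

namespace Pool.Agent.P8H96.RR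

theorem s_finr : S_FINR := by
  have tr : S_TR := Y65.RL.tr
  have j0 : S_J0 := Y578.RL.j0
  have nv : S_NV := Y849.RL.nv
  have nrm : S_NRM := Y722.RL.nrm j0 tr
  have fr0 : S_FR0 := Y65.RL.fr0 j0 tr
  have pi : S_PI := Y692.RL.pi
  have fr1 : T_FR1 := Fr1.fr1 j0 tr pi
  have ram : S_RAM := Y692.RL.ram j0 tr
  have quo : T_QUO := Y429.RL.quo2 j0 tr
  have fx : T_FX := Y429.RL.fx2 tr
  have psd : S_PSD := Y528.RL.psdE
  have gen : T_GEN := Y429.RL.gen2 tr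
  have slf : T_SLF := Y429.RL.slf2 tr quo
  have opt : S_OPT := Y319.RL.opt
  have fxe : T_FXE := fxe2 tr
  have mea : S_MEA := Y70.RL.mea
  have h1 : T_H1 := Y564.RL.h1b psd gen slf fr0 fr1 ram nrm nv tr fx
  have h2 : T_H2 := Y730.RL.H2.h2b psd gen slf ram fx
  have fk : T_FK := Y730.RL.FK.fk2 tr
  have red : T_RED := red2
  have utk : T_UTK := Y968.RL.utk tr
  have twa : T_TWA := Y162.RL.twa tr
  have ctw : T_CTW := Y950.RL.ctw
  have sc : T_SC := Y545.RL.sc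
  exact fin_three (fin_two (kth3 tr opt h1 h2 fx) tr fk red mea fxe sc utk twa ctw scr) expr enx
    (mono enf)

theorem s_alg : S_ALG :=
  alg s_finr P8H32.RR.trx P8H32.RR.dsc sep (Y433.RL.hgt_mean Y65.RL.tr) Y858.RL.rep Y235.RL.Cnj.cnj

end Pool.Agent.P8H96.RR
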